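import Pool.Agent.TH842.Dup.Final

/-!
# MP_03b233_gt: compact Dupin hypersurfaces with two principal curvatures

By the theorem of Cecil and Ryan, the compact connected Dupin hypersurfaces of `S^(n+1)` with
exactly two distinct principal curvatures are, up to isometries of the sphere, the images of the
products `S^p(r) × S^q(s)`, `r^2 + s^2 = 1`, `p + q = n`, under the Möbius transformations
`φ_v(y) = v + (1 - |v|^2) (y + v) / |y + v|^2`, `|v| < 1`.  We prove that no open connected piece of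
such an image is of finite type unless `v = 0`, and that for `v = 0` (the isoparametric products)
each piece is of finite type.
-/

set_option autoImplicit false

namespace Pool.Agent.Results.MP_03b233_gt.CompactTwoCurvatures

open Pool.Agent.TH842.Dup

/-- Let `y : U → ℝ^(p+1) × ℝ^(q+1)` be an immersion of an open connected set `U` of `ℝ^(p+q)` into
`S^p(r) × S^q(s)`, where `p, q ≥ 1` and `r^2 + s^2 = 1`, and let `|v| < 1`.  Then the hypersurface
`v + (1 - |v|^2) (y + v) / |y + v|^2` of `S^(p+q+1)` is of finite type if and only if `v = 0`. -/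
theorem result (p q : ℕ) (hp : 1 ≤ p) (hq : 1 ≤ q) (r s : ℝ) (hr : 0 < r) (hs : 0 < s)
    (hrs : r ^ 2 + s ^ 2 = 1) (v : Fin (p + 1) ⊕ Fin (q + 1) → ℝ) (hv : ∑ a, v a ^ 2 < 1)
    (U : Set (Fin (p + q) → ℝ)) (hU : IsOpen U) (hc : IsConnected U)
    (y : (Fin (p + q) → ℝ) → (Fin (p + 1) ⊕ Fin (q + 1) → ℝ))
    (hsm : ∀ k, ContDiffOn ℝ (⊤ : ℕ∞) (fun z => y z k) U)
    (himm : ∀ z ∈ U, LinearIndependent ℝ (fun i => dx y i z))
    (h1 : ∀ z ∈ U, ∑ a, y z (Sum.inl a) ^ 2 = r ^ 2)
    (h2 : ∀ z ∈ U, ∑ b, y z (Sum.inr b) ^ 2 = s ^ 2) :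
    (∃ k, IsKType k U (fun z a =>
      v a + (1 - ∑ b, v b ^ 2) * (y z a + v a) / ∑ b, (y z b + v b) ^ 2)) ↔ v = 0 := by
  have hn : ∀ w : Fin (p + 1) ⊕ Fin (q + 1) → ℝ, nsq w = ∑ a, w a ^ 2 := by
    intro w
    unfold nsq
    exact Finset.sum_congr rfl fun a _ => by ring
  have hv' : nsq v < 1 := by rw [hn]; exact hv
  have key := finite_iff (ι := Fin (p + q)) (U := U) hp hq hr hs hrs hv' (by simp) hU hc hsm himm
    h1 h2
  have e : mob v y = (fun z a =>
      v a + (1 - ∑ b, v b ^ 2) * (y z a + v a) / ∑ b, (y z b + v b) ^ 2) := by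
    funext z a
    unfold mob
    rw [hn, hn]
  rw [← e]
  exact key

end Pool.Agent.Results.MP_03b233_gt.CompactTwoCurvatures
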