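import Pool.Agent.TH842.Dup.ConeMain

/-!
# Non-isoparametric Dupin hypersurfaces of 1-type in every dimension at least three
-/

set_option autoImplicit false

namespace Pool.Agent.Results.MP_03b233_gt.LocalNonIsoparametric

open Pool.Agent.TH842.Dup

/-- For every `n ≥ 3` there is a Dupin hypersurface of the unit sphere `S^(n+1) ⊂ ℝ^(n+2)` that is
of 1-type and not isoparametric.  The hypersurface is parametrised by an open connected subset `U`
of `ℝ^ι` with `card ι = n`. -/
theorem result :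
    ∀ n : ℕ, 3 ≤ n → ∃ (ι κ : Type) (_ : Fintype ι) (_ : DecidableEq ι) (_ : Fintype κ)
      (U : Set (ι → ℝ)) (x ν : (ι → ℝ) → (κ → ℝ)), Fintype.card ι = n ∧
      IsHypersurface U x ν ∧ IsDupin U x ν ∧ IsKType 1 U x ∧ ¬ IsIsoparametric U x ν := by
  intro n hn
  obtain ⟨m, rfl⟩ : ∃ m, n = m + 2 := ⟨n - 2, by omega⟩
  have hm : 1 ≤ m := by omega
  exact ⟨Fin m ⊕ Fin 2, Fin m ⊕ Fin 4, inferInstance, inferInstance, inferInstance, Cone.U m,
    Cone.x, Cone.ν, by simp, Cone.isHypersurface, Cone.isDupin hm, Cone.oneType,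
    Cone.not_isoparametric hm⟩

end Pool.Agent.Results.MP_03b233_gt.LocalNonIsoparametric
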