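import Pool.Agent.TH842.Dup.ConeS4

/-!
# Dupin hypersurfaces of k-type with two principal curvatures, for every k ≥ 3
-/

set_option autoImplicit false

namespace Pool.Agent.Results.MP_03b233_gt.TwoCurvaturesKType

open Pool.Agent.TH842.Dup

/-- Let `n ≥ 4` and `k ≥ 3`, and let `n` be even or `n ≥ 4 k - 6`.  There is a Dupin hypersurface of
the unit sphere `S^(n+1) ⊂ ℝ^(n+2)` with exactly two distinct principal curvatures at each point that
is of `k`-type and not isoparametric.  The hypersurface is parametrised by an open connected subset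
`U` of `ℝ^ι` with `card ι = n`. -/
theorem result :
    ∀ n k : ℕ, 4 ≤ n → 3 ≤ k → (Even n ∨ 4 * k ≤ n + 6) →
      ∃ (ι κ : Type) (_ : Fintype ι) (_ : DecidableEq ι) (_ : Fintype κ)
        (U : Set (ι → ℝ)) (x ν : (ι → ℝ) → (κ → ℝ)), Fintype.card ι = n ∧
        IsHypersurface U x ν ∧ IsDupin U x ν ∧
        (∀ p ∈ U, {c : ℝ | principal x ν p c ≠ ⊥}.ncard = 2) ∧
        IsKType k U x ∧ ¬ IsIsoparametric U x ν := by
  intro n k hn hk hnk
  obtain ⟨m, rfl⟩ : ∃ m, n = m + 2 := ⟨n - 2, by omega⟩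
  have hmk : Even m ∨ 4 * k ≤ m + 8 := by
    rcases hnk with ⟨t, ht⟩ | h
    · exact Or.inl ⟨t - 1, by omega⟩
    · exact Or.inr (by omega)
  obtain ⟨x, ν, h1, h2, h3, h4, h5⟩ := cones m (by omega) k hk hmk
  exact ⟨Fin m ⊕ Fin 2, Fin m ⊕ Fin 4, inferInstance, inferInstance, inferInstance, Cone.U m,
    x, ν, by simp, h1, h2, h3, h4, h5⟩

end Pool.Agent.Results.MP_03b233_gt.TwoCurvaturesKType
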